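import Pool.Agent.W420.BF.Defs

/-!
The 720 permutations of the 6-set and their action on the colours.
-/

set_option autoImplicit false

open Finset

namespace Pool.Agent.W461.BF

open Pool.Agent.W420.BF

/-- The checks for the permutation number `p`. -/
def okp (p : ℕ) : Bool :=
  ((List.range 6).all fun i => Nat.ble (ft p i + 1) 6 &&
    (List.range 6).all fun j => Nat.beq i j || !(Nat.beq (ft p i) (ft p j))) &&
  ((List.range 15).all fun c => Nat.ble (nib (pt p) c + 1) 15 &&
    (List.range 6).all fun i => !(xor (mem6 (nib (pt p) c) (ft p i)) (mem6 c i)))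

theorem okp_all : (List.range 720).all okp = true := by decide +kernel

theorem trans_all : ((List.range 15).all fun c => (List.range 15).all fun d =>
    (List.range 720).any fun p => Nat.beq (nib (pt p) c) d) = true := by decide +kernel

theorem perm : StmPerm := by
  intro p hp
  have h : okp p = true := (List.all_eq_true.1 okp_all) p (List.mem_range.2 hp)
  rw [okp, Bool.and_eq_true, List.all_eq_true, List.all_eq_true] at h
  obtain ⟨h1, h2⟩ := h
  have hlt : ∀ i < 6, ft p i < 6 := by
    intro i hi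
    have h3 := h1 i (List.mem_range.2 hi)
    rw [Bool.and_eq_true] at h3
    exact Nat.le_of_ble_eq_true h3.1
  have hinj : ∀ i < 6, ∀ j < 6, ft p i = ft p j → i = j := by
    intro i hi j hj hij
    have h3 := h1 i (List.mem_range.2 hi)
    rw [Bool.and_eq_true, List.all_eq_true] at h3
    have h4 := h3.2 j (List.mem_range.2 hj)
    rw [hij, Bool.or_eq_true] at h4
    rcases h4 with h4 | h4
    · exact Nat.eq_of_beq_eq_true h4
    · rw [Nat.beq_refl] at h4
      simp at h4
  have hinj' : Function.Injective (fun i : Fin 6 => (⟨ft p i, hlt i i.2⟩ : Fin 6)) := by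
    intro i j hij
    exact Fin.ext (hinj i i.2 j j.2 (Fin.mk.inj hij))
  refine ⟨Equiv.ofBijective _ (Finite.injective_iff_bijective.1 hinj'), fun c hc => ?_⟩
  have h3 := h2 c (List.mem_range.2 hc)
  rw [Bool.and_eq_true, List.all_eq_true] at h3
  refine ⟨Nat.le_of_ble_eq_true h3.1, fun i => ?_⟩
  have h4 := h3.2 i (List.mem_range.2 i.2)
  show mem6 (nib (pt p) c) (ft p i) = mem6 c i
  cases h5 : mem6 (nib (pt p) c) (ft p i) <;> cases h6 : mem6 c i <;>
    simp [h5, h6] at h4 ⊢

theorem trans : StmTrans := by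
  intro c hc d hd
  have h1 := (List.all_eq_true.1 trans_all) c (List.mem_range.2 hc)
  have h2 := (List.all_eq_true.1 h1) d (List.mem_range.2 hd)
  obtain ⟨p, hp, h3⟩ := List.any_eq_true.1 h2
  exact ⟨p, List.mem_range.1 hp, Nat.eq_of_beq_eq_true h3⟩

theorem act : StmAct := by
  intro V E _ s t X f p hp ⟨h1, h2⟩
  obtain ⟨g, hg⟩ := perm p hp
  refine ⟨fun e => (hg _ (h1 e)).1, fun v hv j hj => ?_⟩
  have hi := h2 v hv (g.symm ⟨j, hj⟩) (Fin.is_lt _)
  have hx : xi (fun e => nib (pt p) (f e)) j = xi f (g.symm ⟨j, hj⟩) := by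
    funext e
    have h3 := (hg _ (h1 e)).2 (g.symm ⟨j, hj⟩)
    rw [Equiv.apply_symm_apply] at h3
    show (if mem6 (nib (pt p) (f e)) j = true then (1 : ZMod 2) else 0) = _
    rw [xi, ← h3]
  rw [hx]
  exact hi

end Pool.Agent.W461.BF
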